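import Pool.Agent.R587.VLDefs
import Pool.Agent.R587.VL
import Pool.Agent.R587.VocRed

/-!
# Categoricity of recursively axiomatized complete second-order theories under `V = L`

Under `V = L` every complete, recursively axiomatized second-order theory in a finite vocabulary
(relation, function and constant symbols) is categorical.

All models have the same cardinality: let `c` be the least infinite cardinality of a model. A larger
model sees (by GCH) all sets of hereditary size at most `c`, and so it knows that there is a smaller
model. If the cardinality is the same, the models are coded by sets `a`, `b` of hereditary size at
most `c`, which are least in the order of constructibility. Since the theory is complete, these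
satisfy the same formulas in the class of these sets, and since it is recursively axiomatized, the
codes are equal (`Setg.unique`, by condensation).
-/

set_option autoImplicit false

namespace Pool.Agent.Results.MP_cba9f6_lc.ConstructibleUniverse

open Pool.Agent.R587

/-- Assume `V = L`. Then every complete, recursively axiomatized second-order theory in a finite
vocabulary is categorical. -/
theorem result (hV : VL) {m l : ℕ} (ar : Fin m → ℕ) (af : Fin l → ℕ) (T : Set (Voc.Fo ar af))
    (hT : Voc.IsTheory T) (hc : Voc.CompleteT T) (hr : Voc.RecAx T) : Voc.CategoricalT T := by
  have _ := hT
  obtain ⟨m', ar', T', -, h2, h3, -, h5⟩ := Voc.reduce hc hr
  exact h5 (categorical_of_VLv hV.vlv h2 h3)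

end Pool.Agent.Results.MP_cba9f6_lc.ConstructibleUniverse
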